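import Pool.Agent.TFJ.Stmts

set_option autoImplicit false

/-!
# Row ROO of squad TFJ (MP_bed68a_al)
-/

namespace Pool.Agent.TFJ.H22

open Pool.Agent.TFJ

theorem dist_pow {G E : Type} [Group G] [MetricSpace E] [MulAction G E]
    (hi : ∀ (g : G) (x y : E), dist (g • x) (g • y) = dist x y) (g : G) (x : E) (N : ℕ) :
    dist x (g ^ N • x) ≤ N * dist x (g • x) := by
  induction N with
  | zero => simp
  | succ n ih =>
    have h1 : dist x (g ^ (n + 1) • x) ≤ dist x (g ^ n • x) + dist (g ^ n • x) (g ^ (n + 1) • x) :=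
      dist_triangle _ _ _
    have h2 : dist (g ^ n • x) (g ^ (n + 1) • x) = dist x (g • x) := by
      rw [pow_succ, mul_smul, hi]
    push_cast
    rw [h2] at h1
    linarith

theorem roo (h : TrlStmt) : RooStmt := by
  intro G E _ _ _ hA g hg
  obtain ⟨c, hc, hT⟩ := h G E hA
  obtain ⟨x, R, hR⟩ := hA.cobdd
  refine ⟨⌈dist x (g • x) / c⌉₊, ?_⟩
  intro k m hconj
  obtain ⟨s, hs⟩ := isConj_iff.mp hconj
  by_contra hlt
  have hlt' : ⌈dist x (g • x) / c⌉₊ < m := not_le.mp hlt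
  have hpow : ∀ n : ℕ, k ^ (m * n) = s * g ^ n * s⁻¹ := by
    intro n
    rw [pow_mul, ← hs, conj_pow]
  have hk : ∀ n : ℕ, 1 ≤ n → k ^ n ≠ 1 := by
    intro n hn hkn
    apply hg n hn
    have h1 : s * g ^ n * s⁻¹ = 1 := by
      rw [← hpow, mul_comm m n, pow_mul, hkn, one_pow]
    have h2 : g ^ n = s⁻¹ * (s * g ^ n * s⁻¹) * s := by group
    rw [h2, h1]
    group
  have hb : ∀ N : ℕ, c * ((m * N : ℕ) : ℝ) ≤ 2 * dist x (s⁻¹ • x) + N * dist x (g • x) := by
    intro N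
    have h1 := hT k hk x (m * N)
    have h2 : dist x (k ^ (m * N) • x) = dist (s⁻¹ • x) (g ^ N • s⁻¹ • x) := by
      have h3 : k ^ (m * N) • x = s • g ^ N • s⁻¹ • x := by
        rw [hpow, mul_smul, mul_smul]
      rw [h3]
      have h4 := hA.isom s⁻¹ x (s • g ^ N • s⁻¹ • x)
      rw [inv_smul_smul] at h4
      exact h4.symm
    have h5 : dist (s⁻¹ • x) (g ^ N • s⁻¹ • x) ≤
        dist (s⁻¹ • x) x + dist x (g ^ N • x) + dist (g ^ N • x) (g ^ N • s⁻¹ • x) :=
      dist_triangle4 _ _ _ _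
    have h6 : dist (g ^ N • x) (g ^ N • s⁻¹ • x) = dist x (s⁻¹ • x) := hA.isom _ _ _
    have h7 : dist (s⁻¹ • x) x = dist x (s⁻¹ • x) := dist_comm _ _
    have h8 := dist_pow hA.isom g x N
    rw [h2] at h1
    linarith
  have hd : dist x (g • x) < c * m := by
    have h1 : dist x (g • x) / c ≤ (⌈dist x (g • x) / c⌉₊ : ℝ) := Nat.le_ceil _
    have h2 : ((⌈dist x (g • x) / c⌉₊ : ℕ) : ℝ) < m := by exact_mod_cast hlt'
    have h3 : dist x (g • x) / c < m := lt_of_le_of_lt h1 h2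
    rw [div_lt_iff₀ hc] at h3
    linarith
  obtain ⟨N, hN⟩ := exists_nat_gt (2 * dist x (s⁻¹ • x) / (c * m - dist x (g • x)))
  have hpos : 0 < c * m - dist x (g • x) := by linarith
  rw [div_lt_iff₀ hpos] at hN
  have h9 := hb N
  push_cast at h9
  nlinarith

end Pool.Agent.TFJ.H22
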